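import Pool.Agent.FMod.FlatGlobal

/-!
Closed support of the Koszul cohomology of F-finite F-modules, for every sequence of elements and
in every degree.
-/

set_option autoImplicit false

open CategoryTheory Pool.Agent.FMod

universe u

/-- Let `R` be a (noetherian) regular ring of prime characteristic `p`, let `(M, θ)` be an
F-finite F-module over `R`, and let `f 0, …, f (c-1)` be any sequence of elements of `R`. Then
the support of every Koszul cohomology module `Hⁱ(K(f; M))` is closed in `Spec R`. -/
theorem Pool.Agent.Results.MP_95a866_al.ClosedSupport.result
    (R : Type u) [CommRing R] [IsRegularRing R] (p : ℕ) [Fact p.Prime] [CharP R p]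
    (M : ModuleCat.{u} R) (θ : M ≅ (Frob R p).obj M) (hM : IsFFinite θ)
    (c : ℕ) (f : Fin c → R) (i : ℕ) :
    IsClosed (Module.support R (KH f M i)) := by
  have hflat : Module.Flat R (Fr R p) := flat_of_regular
  exact isClosed_support_of_flat hM f i
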